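import Pool.Agent.InterPA.CondC
import Pool.Agent.InterPA.Ext

/-!
# A new necessary condition on ranked interstructure lattices of models of PA

The ranked lattice `Lt*(N/M)` of an elementary extension `M ≺ N` of models of PA satisfies, besides
the conditions (A) and (B), the following amalgamation condition (C): if `N` is an end extension of
`b` and `b ⊓ c` is cofinal in `b`, then `(a ⊔ c) ⊓ b = a` for all `a` between `b ⊓ c` and `b`.
For every finite lattice `K` with at least three elements, the finite ranked lattice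
`(K ∪ {c, 1}, {1_K, 1})` satisfies (A) and (B) but not (C), so it is not `Lt*(N/M)` for any model
`M` of PA; if `K` is distributive with at least four elements, no interval of `K ∪ {c, 1}` is a
pentagon.
-/

open FirstOrder FirstOrder.Language FirstOrder.Ring

namespace Pool.Agent.Results.MP_e2f1c5_lc.AmalgamationCondition

open Pool.InterPA

/-- A structure for the language of rings that is a commutative semiring. -/
structure Arith where
  /-- the underlying set -/
  carrier : Type
  [semiring : CommSemiring carrier]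
  [neg : Neg carrier]
  [compatible : CompatibleRing carrier]

attribute [instance] Arith.semiring Arith.neg Arith.compatible

/-- the structure for the language of rings -/
@[reducible] def Arith.str (N : Arith) : Language.ring.Structure N.carrier := inferInstance

attribute [local instance] Arith.str

/-- `M` is a model of PA. -/
def Arith.IsModel (M : Arith) : Prop := IsPA M.carrier

/-- Elementary embeddings of `M` in `N`. -/
abbrev Emb (M N : Arith) : Type := M.carrier ↪ₑ[Language.ring] N.carrier

/-- The elementary substructures of `N`. -/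
abbrev Sub (N : Arith) : Type := Language.ring.ElementarySubstructure N.carrier

/-- The lattice of elementary substructures of `N` containing (the image of) `M`. -/
abbrev Lt {M N : Arith} (f : Emb M N) : Type := {K : Sub N // ∀ x, f x ∈ K}

/-- `N` is an end extension of `K`. -/
def IsEnd {N : Arith} (K : Sub N) : Prop :=
  ∀ x ∈ K, ∀ y : N.carrier, y ∉ K → ∃ z : N.carrier, x + z + 1 = y

/-- `(L, C)` is isomorphic to the ranked lattice `Lt*(N/M)` of some elementary extension `N` of
`M`: `e` is an isomorphism of `L` onto the lattice of elementary substructures of `N` containing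
(the image of) `M`, and `l ∈ C` iff `N` is an end extension of `e l`. -/
def Realised (M : Arith) (L : Type) [Lattice L] (C : Set L) : Prop :=
  ∃ (N : Arith) (f : Emb M N) (e : L ≃o Lt f), ∀ l : L, l ∈ C ↔ IsEnd (e l).1

/-- `c` is the least element of `C` above `x`. -/
def IsBar {L : Type} [Lattice L] (C : Set L) (x c : L) : Prop :=
  c ∈ C ∧ x ≤ c ∧ ∀ c' ∈ C, x ≤ c' → c ≤ c'

/-- Condition (A). -/
def CondA {L : Type} [Lattice L] (C : Set L) : Prop :=
  ∀ x y c : L, IsBar C x c → IsBar C y c → IsBar C (x ⊓ y) c

/-- Condition (B). -/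
def CondB {L : Type} [Lattice L] (C : Set L) : Prop :=
  ∀ w x y z : L, x ⊔ w = z → y ⊔ w = z → x ⊓ w = y ⊓ w →
    (∃ c : L, IsBar C w c ∧ w = c ⊓ z) → x = y

/-- Condition (C): if `b ∈ C` is the least element of `C` above `b ⊓ c` and
`b ⊓ c ≤ a ≤ b`, then `(a ⊔ c) ⊓ b = a`. -/
def CondC {L : Type} [Lattice L] (C : Set L) : Prop :=
  ∀ a b c : L, IsBar C (b ⊓ c) b → b ⊓ c ≤ a → a ≤ b → (a ⊔ c) ⊓ b = a

lemma exists_proper {K : Type} [Lattice K] [BoundedOrder K] [Finite K] (h : 3 ≤ Nat.card K) :
    ∃ k : K, k ≠ ⊥ ∧ k ≠ ⊤ := by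
  have h1 : ({⊥, ⊤} : Set K).ncard < (Set.univ : Set K).ncard := by
    rw [Set.ncard_univ]
    have := Set.ncard_insert_le (⊥ : K) {⊤}
    rw [Set.ncard_singleton] at this
    omega
  obtain ⟨k, -, hk⟩ := Set.exists_mem_notMem_of_ncard_lt_ncard h1
  refine ⟨k, fun h => hk (by simp [h]), fun h => hk (by simp [h])⟩

lemma exists_fourth {K : Type} [Finite K] (h : 4 ≤ Nat.card K) (a b c : K) :
    ∃ d : K, d ≠ a ∧ d ≠ b ∧ d ≠ c := by
  have h1 : ({a, b, c} : Set K).ncard < (Set.univ : Set K).ncard := by
    rw [Set.ncard_univ]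
    have h2 := Set.ncard_insert_le a {b, c}
    have h3 := Set.ncard_insert_le b {c}
    rw [Set.ncard_singleton] at h3
    omega
  obtain ⟨k, -, hk⟩ := Set.exists_mem_notMem_of_ncard_lt_ncard h1
  refine ⟨k, fun h => hk (by simp [h]), fun h => hk (by simp [h]), fun h => hk (by simp [h])⟩

theorem necessary {M : Arith} (hM : M.IsModel) {L : Type} [Lattice L] {C : Set L}
    (h : Realised M L C) : CondC C := by
  obtain ⟨N, f, e, h⟩ := h
  intro a b c hb hca hab
  let e' : Lt f ≃o {K : Sub N // Set.range f ⊆ (K : Set N.carrier)} :=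
    { toFun := fun K => ⟨K.1, by rintro _ ⟨x, rfl⟩; exact K.2 x⟩
      invFun := fun K => ⟨K.1, fun x => K.2 ⟨x, rfl⟩⟩
      left_inv := fun _ => rfl
      right_inv := fun _ => rfl
      map_rel_iff' := Iff.rfl }
  exact condC_of_iso (M := M.carrier) (N := N.carrier) hM f (e.trans e') h hb.1 hb.2.2 hca hab

/-- **A new necessary condition for ranked interstructure lattices, and infinitely many finite
ranked lattices with (A) and (B) which are not realised over any model of PA.** -/
theorem result :
    (∀ (L : Type) [Lattice L] (C : Set L) (M : Arith), M.IsModel → Realised M L C → CondC C) ∧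
    (∀ (K : Type) [Lattice K] [BoundedOrder K] [Finite K], 3 ≤ Nat.card K →
      Finite (Adj K) ∧ IsChain (· ≤ ·) (Adj.ch K) ∧ ⊤ ∈ Adj.ch K ∧
      CondA (Adj.ch K) ∧ CondB (Adj.ch K) ∧
      ∀ M : Arith, M.IsModel → ¬ Realised M (Adj K) (Adj.ch K)) ∧
    (∀ (K : Type) [DistribLattice K] [BoundedOrder K] [Finite K], 4 ≤ Nat.card K →
      ∀ u v : Adj K, IsEmpty (Pool.Interstr.N5 ≃o Set.Icc u v)) := by
  refine ⟨fun L _ C M hM h => necessary hM h, ?_, ?_⟩
  · intro K _ _ _ hK
    obtain ⟨k, h0, h1⟩ := exists_proper hK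
    have : Nontrivial K := ⟨⟨k, ⊥, h0⟩⟩
    refine ⟨inferInstance, Adj.chain, Adj.top_mem, Adj.condA, Adj.condB, ?_⟩
    intro M hM hR
    obtain ⟨a, b, c, hb, hbc, hca, hab, hne⟩ := Adj.not_condC h0 h1
    exact hne (necessary hM hR a b c ⟨hb, inf_le_left, hbc⟩ hca hab)
  · intro K _ _ _ hK u v
    exact Adj.no_pentagon_interval (exists_fourth hK) u v

end Pool.Agent.Results.MP_e2f1c5_lc.AmalgamationCondition
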