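import Pool.Agent.InterPA.CondC
import Pool.Agent.InterD.Iso
import Pool.Agent.InterD.Family2

/-!
# The fibre condition for ranked interstructure lattices of models of PA

Let the finite ranked lattice `(L, C)` be the ranked lattice `Lt*(N/M)` of an elementary extension
`M ≺ N` of models of PA, and let `w = c ⊓ z` for the least element `c` of `C` above `w`. Then the
set of the `x` with `x ⊔ w = z` for which `c` is the least element of `C` above `x ⊓ w` is empty or
has a least element `x₀`, and `u ↦ x₀ ⊔ u` and `x ↦ x ⊓ w` are inverse bijections between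
`[x₀ ⊓ w, w]` and this set. The new part is the meet condition (D): if `x ⊔ w = y ⊔ w = z`,
`w = c ⊓ z` where `c` is the least element of `C` above `x ⊓ y ⊓ w`, and `z` is below the least
element of `C` above `x ⊓ y`, then `(x ⊓ y) ⊔ w = z`.
For every finite lattice `K` with two coatoms `a ≠ b`, the finite ranked lattice
`(K × {0, 1} ∪ {x, y, 1}, {(1_K, 0), 1})`, where `x` and `y` are covers of `(a, 1)` and `(b, 1)`,
satisfies (A), (B) and the amalgamation condition (C), but not these conditions, so it is not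
`Lt*(N/M)` for any model `M` of PA.
-/

open FirstOrder FirstOrder.Language FirstOrder.Ring

namespace Pool.Agent.Results.MP_e2f1c5_lc.FibreCondition

open Pool.InterPA Pool.InterD

/-- A structure for the language of rings that is a commutative semiring. -/
structure Arith where
  /-- the underlying set -/
  carrier : Type
  [semiring : CommSemiring carrier]
  [neg : Neg carrier]
  [compatible : CompatibleRing carrier]

attribute [instance] Arith.semiring Arith.neg Arith.compatible

/-- the structure for the language of rings -/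
@[reducible] def Arith.str (N : Arith) : Language.ring.Structure N.carrier := inferInstance

attribute [local instance] Arith.str

/-- `M` is a model of PA. -/
def Arith.IsModel (M : Arith) : Prop := IsPA M.carrier

/-- Elementary embeddings of `M` in `N`. -/
abbrev Emb (M N : Arith) : Type := M.carrier ↪ₑ[Language.ring] N.carrier

/-- The elementary substructures of `N`. -/
abbrev Sub (N : Arith) : Type := Language.ring.ElementarySubstructure N.carrier

/-- The lattice of elementary substructures of `N` containing (the image of) `M`. -/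
abbrev Lt {M N : Arith} (f : Emb M N) : Type := {K : Sub N // ∀ x, f x ∈ K}

/-- `N` is an end extension of `K`. -/
def IsEnd {N : Arith} (K : Sub N) : Prop :=
  ∀ x ∈ K, ∀ y : N.carrier, y ∉ K → ∃ z : N.carrier, x + z + 1 = y

/-- `(L, C)` is isomorphic to the ranked lattice `Lt*(N/M)` of some elementary extension `N` of
`M`: `e` is an isomorphism of `L` onto the lattice of elementary substructures of `N` containing
(the image of) `M`, and `l ∈ C` iff `N` is an end extension of `e l`. -/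
def Realised (M : Arith) (L : Type) [Lattice L] (C : Set L) : Prop :=
  ∃ (N : Arith) (f : Emb M N) (e : L ≃o Lt f), ∀ l : L, l ∈ C ↔ IsEnd (e l).1

/-- `c` is the least element of `C` above `x`. -/
def IsBar {L : Type} [Lattice L] (C : Set L) (x c : L) : Prop :=
  c ∈ C ∧ x ≤ c ∧ ∀ c' ∈ C, x ≤ c' → c ≤ c'

/-- Condition (A). -/
def CondA {L : Type} [Lattice L] (C : Set L) : Prop :=
  ∀ x y c : L, IsBar C x c → IsBar C y c → IsBar C (x ⊓ y) c

/-- Condition (B). -/
def CondB {L : Type} [Lattice L] (C : Set L) : Prop :=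
  ∀ w x y z : L, x ⊔ w = z → y ⊔ w = z → x ⊓ w = y ⊓ w →
    (∃ c : L, IsBar C w c ∧ w = c ⊓ z) → x = y

/-- Condition (C): if `b ∈ C` is the least element of `C` above `b ⊓ c` and
`b ⊓ c ≤ a ≤ b`, then `(a ⊔ c) ⊓ b = a`. -/
def CondC {L : Type} [Lattice L] (C : Set L) : Prop :=
  ∀ a b c : L, IsBar C (b ⊓ c) b → b ⊓ c ≤ a → a ≤ b → (a ⊔ c) ⊓ b = a

/-- Condition (D): if `x ⊔ w = y ⊔ w = z`, if `w = c ⊓ z` for the least element `c` of `C` above
`x ⊓ y ⊓ w`, and if `z` is below the least element `d` of `C` above `x ⊓ y`, then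
`(x ⊓ y) ⊔ w = z`. -/
def CondD {L : Type} [Lattice L] (C : Set L) : Prop :=
  ∀ w x y z c d : L, IsBar C (x ⊓ y ⊓ w) c → IsBar C (x ⊓ y) d → z ≤ d → w = c ⊓ z →
    x ⊔ w = z → y ⊔ w = z → (x ⊓ y) ⊔ w = z

/-- The fibre condition (F): if `w = c ⊓ z` for the least element `c` of `C` above `w`, and if
there is an `x` with `x ⊔ w = z` such that `c` is the least element of `C` above `x ⊓ w`, then
there is an `x₀` such that `(x₀ ⊔ u) ⊓ w = u` for `x₀ ⊓ w ≤ u ≤ w` and such that these `x` are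
exactly the elements `x₀ ⊔ u` with `x₀ ⊓ w ≤ u ≤ w`. -/
def CondF {L : Type} [Lattice L] (C : Set L) : Prop :=
  ∀ w z c : L, IsBar C w c → w = c ⊓ z → (∃ x, x ⊔ w = z ∧ IsBar C (x ⊓ w) c) →
    ∃ x₀ : L, (∀ u, x₀ ⊓ w ≤ u → u ≤ w → (x₀ ⊔ u) ⊓ w = u) ∧
      ∀ x, (x ⊔ w = z ∧ IsBar C (x ⊓ w) c) ↔ ∃ u, x₀ ⊓ w ≤ u ∧ u ≤ w ∧ x = x₀ ⊔ u

/-- The lattice `K × {0, 1} ∪ {x, y, 1}`. -/
abbrev Lat {K : Type} (a b : K) : Type := TC ((a, true) : K × Bool) ((b, true) : K × Bool)

/-- The chain `{(1_K, 0), 1}`. -/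
def chn {K : Type} [Lattice K] [BoundedOrder K] (a b : K) : Set (Lat a b) :=
  {TC.emb (⊤, false), TC.tt}

/-- The fibre condition from (A), (B) for comparable elements, (C) and (D). -/
theorem condF_of {L : Type} [Lattice L] [Finite L] {C : Set L}
    (hch : ∀ c ∈ C, ∀ c' ∈ C, c ≤ c' ∨ c' ≤ c) (hbar : ∀ l, ∃ d, IsBar C l d) (hA : CondA C)
    (hB : ∀ w x x' z c : L, c ∈ C → w = c ⊓ z → x ≤ z → x' ≤ x → x' ⊔ w = z → x ⊓ w ≤ x' →
      x = x') (hC : CondC C) (hD : CondD C) : CondF C := by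
  intro w z c hwc hw hne
  have hwz : w ≤ z := hw.le.trans inf_le_right
  have hxz : ∀ {x : L}, x ⊔ w = z → x ≤ z := fun h => le_sup_left.trans h.le
  -- the set is closed under meets
  have hmeet : ∀ x y : L, x ⊔ w = z → y ⊔ w = z → IsBar C (x ⊓ w) c → IsBar C (y ⊓ w) c →
      (x ⊓ y) ⊔ w = z ∧ IsBar C (x ⊓ y ⊓ w) c := by
    intro x y hx hy hxc hyc
    have h1 : IsBar C (x ⊓ y ⊓ w) c := by
      have h2 := hA _ _ _ hxc hyc
      rwa [← inf_inf_distrib_right] at h2
    refine ⟨?_, h1⟩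
    by_cases hzc : z ≤ c
    · have h2 : w = z := by rw [hw]; exact inf_eq_right.2 hzc
      rw [h2]
      exact sup_eq_right.2 (inf_le_left.trans (hxz hx))
    · obtain ⟨d, hd⟩ := hbar z
      have h2 : ∀ x : L, x ⊔ w = z → IsBar C x d := by
        intro x hx
        refine ⟨hd.1, (hxz hx).trans hd.2.1, fun c' hc' hxc' => ?_⟩
        rcases hch c' hc' c hwc.1 with h3 | h3
        · exfalso
          apply hzc
          rw [← hx]
          exact sup_le (hxc'.trans h3) hwc.2.1
        · apply hd.2.2 c' hc'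
          rw [← hx]
          exact sup_le hxc' (hwc.2.1.trans h3)
      exact hD w x y z c d h1 (hA x y d (h2 x hx) (h2 y hy)) hd.2.1 hw hx hy
  -- the least element
  obtain ⟨x₀, hx₀, hmin⟩ : ∃ x₀ : L, (x₀ ⊔ w = z ∧ IsBar C (x₀ ⊓ w) c) ∧
      ∀ x, (x ⊔ w = z ∧ IsBar C (x ⊓ w) c) → x₀ ≤ x := by
    obtain ⟨x₀, hx₀⟩ := (Set.toFinite {x : L | x ⊔ w = z ∧ IsBar C (x ⊓ w) c}).exists_minimal hne
    refine ⟨x₀, hx₀.1, fun x hx => ?_⟩
    have h1 := hmeet x₀ x hx₀.1.1 hx.1 hx₀.1.2 hx.2
    exact (hx₀.2 h1 inf_le_left).trans inf_le_right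
  have hmod : ∀ x u : L, x ≤ z → IsBar C (x ⊓ w) c → x ⊓ w ≤ u → u ≤ w → (x ⊔ u) ⊓ w = u := by
    intro x u hx hxc h1 h2
    have h3 : c ⊓ x = x ⊓ w := by
      rw [hw, ← inf_assoc, inf_comm x c, inf_assoc, inf_eq_left.2 hx]
    have h4 := hC u c x (by rw [h3]; exact hxc) (by rw [h3]; exact h1) (h2.trans hwc.2.1)
    rw [hw, sup_comm x u, ← inf_assoc, h4]
    exact inf_eq_left.2 (h2.trans hwz)
  refine ⟨x₀, fun u => hmod x₀ u (hxz hx₀.1) hx₀.2, fun x => ⟨fun hx => ?_, ?_⟩⟩
  · have hle := hmin x hx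
    refine ⟨x ⊓ w, inf_le_inf_right w hle, inf_le_right, ?_⟩
    refine hB w x (x₀ ⊔ x ⊓ w) z c hwc.1 hw (hxz hx.1) (sup_le hle inf_le_left) ?_ le_sup_right
    rw [sup_assoc, sup_eq_right.2 (inf_le_right : x ⊓ w ≤ w)]
    exact hx₀.1
  · rintro ⟨u, h1, h2, rfl⟩
    refine ⟨by rw [sup_assoc, sup_eq_right.2 h2]; exact hx₀.1, ?_⟩
    rw [hmod x₀ u (hxz hx₀.1) hx₀.2 h1 h2]
    exact ⟨hwc.1, h2.trans hwc.2.1, fun c' hc' huc' => hx₀.2.2.2 c' hc' (h1.trans huc')⟩

theorem necessary {M : Arith} (hM : M.IsModel) {L : Type} [Lattice L] [Finite L] {C : Set L}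
    (h : Realised M L C) : CondD C ∧ CondF C := by
  obtain ⟨N, f, e, h⟩ := h
  let e' : L ≃o {K : Sub N // Set.range f ⊆ (K : Set N.carrier)} := e.trans
    { toFun := fun K => ⟨K.1, by rintro _ ⟨x, rfl⟩; exact K.2 x⟩
      invFun := fun K => ⟨K.1, fun x => K.2 ⟨x, rfl⟩⟩
      left_inv := fun _ => rfl
      right_inv := fun _ => rfl
      map_rel_iff' := Iff.rfl }
  have hN : IsPA N.carrier := IsPA.of_embedding (M := M.carrier) hM f
  have h' : ∀ l : L, l ∈ C ↔ ∀ x ∈ (e' l).1, ∀ y : N.carrier, y ∉ (e' l).1 →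
      Pool.Interstr.Lt x y := h
  have hD : CondD C := by
    intro w x y z c d hc hd hzd hw hx hy
    exact condD_e e' hN h' hc.1 hc.2.2 hd.2.2 hzd hw hx hy
  refine ⟨hD, condF_of (fun c hc c' hc' => chain_e e' hN h' hc hc') ?_ ?_ ?_ ?_ hD⟩
  · intro l
    obtain ⟨b, hb, hlb, hb', -⟩ := bar_e e' hN h' l
    exact ⟨b, hb, hlb, hb'⟩
  · intro x y c hx hy
    exact ⟨hx.1, inf_le_left.trans hx.2.1, condA_e e' hN h' hx.2.1 hy.2.1 hx.2.2 hy.2.2⟩
  · intro w x x' z c hc hw hx hxx' hx' hxw
    exact condB_e e' hN h' hc hw hx hxx' hx' hxw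
  · intro a b c hb hca hab
    exact condC_of_iso (M := M.carrier) (N := N.carrier) hM f e' h hb.1 hb.2.2 hca hab

/-- **The fibre condition for ranked interstructure lattices, and infinitely many finite ranked
lattices with (A), (B) and (C) which are not realised over any model of PA.** -/
theorem result :
    (∀ (L : Type) [Lattice L] [Finite L] (C : Set L) (M : Arith), M.IsModel →
      Realised M L C → CondD C ∧ CondF C) ∧
    (∀ (K : Type) [Lattice K] [BoundedOrder K] [Finite K] (a b : K), IsCoatom a → IsCoatom b →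
      a ≠ b →
      Finite (Lat a b) ∧ IsChain (· ≤ ·) (chn a b) ∧ ⊤ ∈ chn a b ∧
      CondA (chn a b) ∧ CondB (chn a b) ∧ CondC (chn a b) ∧
      ∀ M : Arith, M.IsModel → ¬ Realised M (Lat a b) (chn a b)) ∧
    (∀ (K : Type) [DistribLattice K] [BoundedOrder K] (a b : K), IsCoatom a →
      IsCoatom b → ∀ u v : Lat a b, IsEmpty (Pool.Interstr.N5 ≃o Set.Icc u v)) := by
  refine ⟨fun L _ _ C M hM h => necessary hM h, ?_, ?_⟩
  · intro K _ _ _ a b ha hb hab
    have hp : ∀ p q : K × Bool, ¬ p ≤ (⊤, false) → ¬ q ≤ (⊤, false) → ¬ p ⊓ q ≤ (⊤, false) := by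
      rintro ⟨p, i⟩ ⟨q, j⟩ h1 h2
      cases i <;> cases j <;> simp_all [Prod.le_def]
    have h1 : ∀ k : K, ¬ ((k, true) : K × Bool) ≤ (⊤, false) := by
      intro k h
      exact absurd h.2 (show ¬ (true ≤ false) by decide)
    have h2 : ∀ k : K, IsCoatom k → ¬ ((⊤, false) : K × Bool) ≤ (k, true) := by
      intro k hk h
      exact hk.1 (top_le_iff.1 h.1)
    have h3 : ∀ k : K, ((⊤, false) : K × Bool) ⊓ (k, true) = (k, false) := by
      intro k
      ext <;> simp
    have h4 : ∀ k : K, IsCoatom k → ∀ l : K × Bool, ((⊤, false) : K × Bool) ⊓ (k, true) ≤ l →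
        l ≤ (⊤, false) → l = (⊤, false) ⊓ (k, true) ∨ l = (⊤, false) := by
      rintro k hk ⟨l, i⟩ h h'
      rw [h3] at h ⊢
      have hi : i = false := by
        have := h'.2
        cases i
        · rfl
        · exact absurd this (show ¬ (true ≤ false) by decide)
      subst hi
      rcases hk.le_iff.1 h.1 with h5 | h5
      · right
        change l = ⊤ at h5
        rw [h5]
      · left
        change l = k at h5
        rw [h5]
    refine ⟨inferInstance, TC.chain _, TC.top_mem _, TC.condA hp (h1 a) (h1 b),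
      TC.condB ?_ (h2 a ha) (h2 b hb) ?_, TC.condC ?_ (h4 a ha) (h4 b hb), ?_⟩
    · rintro ⟨p, i⟩ ⟨q, j⟩ ⟨z, l⟩ e1 e2 e3
      simp only [Prod.mk_inf_mk, Prod.mk_sup_mk, Prod.mk.injEq, top_inf_eq] at e1 e2 e3 ⊢
      obtain ⟨e1, e1'⟩ := e1
      obtain ⟨e2, e2'⟩ := e2
      refine ⟨?_, ?_⟩
      · have hp : p ≤ z := le_sup_left.trans e1.le
        have hq : q ≤ z := le_sup_left.trans e2.le
        have e4 := e3.1
        rwa [inf_eq_left.2 hp, inf_eq_left.2 hq] at e4
      · revert e1' e2'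
        cases i <;> cases j <;> cases l <;> decide
    · rw [h3, h3]
      intro h
      exact hab (congrArg Prod.fst h)
    · rintro ⟨k, i⟩ ⟨c, j⟩ h h'
      have hi : i = false := by
        have := h'.2
        cases i
        · rfl
        · exact absurd this (show ¬ (true ≤ false) by decide)
      subst hi
      have hck : c ≤ k := by simpa using h.1
      ext <;> simp [hck]
    · intro M hM hR
      obtain ⟨q1, q2, q3, q4, q5, q6, q7⟩ := TC.not_condD (h2 a ha) (h2 b hb)
        (fun h => h1 (a ⊓ b) (by simpa using h))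
      exact q7 ((necessary hM hR).1 _ _ _ _ _ _ q1 q2 q3 q4 q5 q6)
  · intro K _ _ a b ha hb u v
    have h5 : ∀ k : K, IsCoatom k → IsCoatom ((k, true) : K × Bool) := by
      intro k hk
      refine ⟨fun h => hk.1 (congrArg Prod.fst h), ?_⟩
      rintro ⟨l, i⟩ hl
      have h6 := hl.le
      have hi : i = true := by
        have := h6.2
        cases i
        · exact absurd this (show ¬ (true ≤ false) by decide)
        · rfl
      subst hi
      rcases hk.le_iff.1 h6.1 with h7 | h7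
      · change l = ⊤ at h7
        rw [h7]
        rfl
      · change l = k at h7
        rw [h7] at hl
        exact absurd hl (lt_irrefl _)
    exact TC.no_pentagon_interval (h5 a ha) (h5 b hb) u v

end Pool.Agent.Results.MP_e2f1c5_lc.FibreCondition
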